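import Pool.Agent.Y213.T6.FinH

/-!
# Sections of fundamental groups of the curves in a base point free family on `E ^ r`

`E : y² = x³ + a x + b` is an elliptic curve over a number field `K` (any rank) whose
Tate-Shafarevich group is killed by some `M₀ ≥ 1`, and `X` is a closed subvariety of
`E ^ r × ℙ ^ n`, of degree at most `k` in the coordinates of `ℙ ^ n`, which contains no
`{V} × ℙ ^ n`. For `y` in `ℙ ^ n (K)` the member `X_y` of the family is the closed subvariety of
`E ^ r` over which `y` is a point of the fibre. For example the `X_y` can be all the members of a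
base point free linear system on `E ^ r`, or all the intersections of `r - 1` members of such
systems (`k = 1`). Let `C` be a smooth curve over `K` with a map to `X_y`, that is, with function
field `F` and a point `P` in `X_y(F)`. There are `O(B ^ ε)` hypersurfaces of degree `k` in `ℙ ^ n`
such that for the points `y` of height at most `B` outside of them there is no section of the map
from `π₁(C)` to the absolute Galois group of `K` which is given over the completion of `K` at each
finite place by a point (or a cusp) of `C`.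

The fundamental group is described as in the other files of this folder: `F_C` is the maximal
extension of `F` in an algebraic closure `Ω` which is unramified over the valuation rings of the
points of `C`, and the field `M` can be any extension of `F` which embeds in `Ω` and contains `F_C`.
-/

set_option autoImplicit false

namespace Pool.Agent.Results.MP_2f3286_ag.SectionsInLinearSystems

open MvPolynomial NumberField IsDedekindDomain Pool.Agent.TH954 Pool.Agent.W620.SC

open scoped LinearAlgebra.Projectivization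

/-- `v` are homogeneous coordinates of a point of the curve `y² = x³ + a x + b` -/
def OnE {k : Type} [Field k] (a b : k) (v : Fin 3 → k) : Prop :=
  v ≠ 0 ∧ v 1 ^ 2 * v 2 = v 0 ^ 3 + a * v 0 * v 2 ^ 2 + b * v 2 ^ 3

/-- the curve `y² = x³ + a x + b` -/
def Curve {k : Type} [Field k] (a b : k) : WeierstrassCurve k :=
  { a₁ := 0, a₂ := 0, a₃ := 0, a₄ := a, a₆ := b }

/-- `F` is homogeneous of degree `d i` in the coordinates `(i, 0), (i, 1), (i, 2)` of the `i`-th
point of the plane, and homogeneous of degree `m` in the last `n + 1` variables -/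
def MultiHomog {O : Type} [CommRing O] {r n : ℕ}
    (F : MvPolynomial ((Fin r × Fin 3) ⊕ Fin (n + 1)) O) (d : Fin r → ℕ) (m : ℕ) : Prop :=
  ∀ e ∈ F.support, (∀ i, ∑ j, e (Sum.inl (i, j)) = d i) ∧ ∑ i, e (Sum.inr i) = m

/-- the fibre over `V` (the homogeneous coordinates of a point of `E ^ r` over `k`), in the
projective `n`-space over `k`, of the subvariety defined by the `G e` -/
def Fibre {O k : Type} [CommRing O] [Field k] (φ : O →+* k) {r n q : ℕ}
    (G : Fin q → MvPolynomial ((Fin r × Fin 3) ⊕ Fin (n + 1)) O) (V : Fin r → Fin 3 → k) :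
    Set (ℙ k (Fin (n + 1) → k)) :=
  {y | ∀ e, eval₂ φ (Sum.elim (fun ij => V ij.1 ij.2) y.rep) (G e) = 0}

/-- the equations `G e (V; y) = 0` of the member `X_y` of the family, for `y` in the projective
`n`-space over `K` -/
noncomputable def Member {K : Type} [Field K] {r n q : ℕ}
    (G : Fin q → MvPolynomial ((Fin r × Fin 3) ⊕ Fin (n + 1)) (𝓞 K))
    (y : ℙ K (Fin (n + 1) → K)) : Set (MvPolynomial (Fin r × Fin 3) K) :=
  Set.range fun e =>
    eval₂ (C.comp (algebraMap (𝓞 K) K)) (Sum.elim X (fun i => C (y.rep i))) (G e)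

theorem result (K : Type) [Field K] [NumberField K] (a b : 𝓞 K)
    (hE : 4 * a ^ 3 + 27 * b ^ 2 ≠ 0) (M₀ : ℕ) (hM1 : 1 ≤ M₀)
    (hM : ShaKilledBy (Curve (a : K) (b : K)) M₀) (r n q : ℕ)
    (G : Fin q → MvPolynomial ((Fin r × Fin 3) ⊕ Fin (n + 1)) (𝓞 K))
    (d : Fin q → Fin r → ℕ) (m : Fin q → ℕ) (hG : ∀ e, MultiHomog (G e) (d e) (m e))
    (k : ℕ) (hk : ∀ e, m e ≤ k) (σ : K →+* ℂ)
    (hX : ∀ V : Fin r → Fin 3 → ℂ, (∀ i, OnE (σ a) (σ b) (V i)) →
      Fibre (σ.comp (algebraMap (𝓞 K) K)) G V ≠ Set.univ)
    (ε : ℝ) (hε : 0 < ε) :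
    ∃ c : ℝ, ∀ B : ℝ, 1 ≤ B → ∃ FF : Finset (MvPolynomial (Fin (n + 1)) K),
      (FF.card : ℝ) ≤ c * B ^ ε ∧ (∀ f ∈ FF, f ≠ 0 ∧ f.IsHomogeneous k) ∧
      ∀ y : ℙ K (Fin (n + 1) → K), y.mulHeight ≤ B → (∀ f ∈ FF, eval y.rep f ≠ 0) →
      ∀ (F Ω M A : Type) [Field F] [Field Ω] [Field M] [Field A] [Algebra K F] [Algebra F Ω]
        [Algebra K Ω] [Algebra F M] [Algebra K M] [Algebra K A] [IsScalarTower K F Ω]
        [IsScalarTower K F M] [IsAlgClosure F Ω] [IsAlgClosure K A]
        (C : Set (ValuationSubring F)) (_ : ∀ O ∈ C, ∀ c : K, algebraMap K F c ∈ O)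
        (e : M →ₐ[F] Ω) (_ : unramified F Ω C ≤ e.fieldRange)
        (P : Fin r → ((Curve (a : K) (b : K)).baseChange F).toAffine.Point)
        (_ : OnX (Member G y) (fun i => crd (P i))) (s : GalSection K F M A)
        (p : ∀ v : HeightOneSpectrum (𝓞 K), Plc K M (AlgebraicClosure (v.adicCompletion K))),
        ¬ ∀ v, s.GivenBy (v.adicCompletion K) (p v) :=
  Pool.Agent.Y213.T6.section_hyp K r n q a b hE M₀ hM1 hM G d m
    (fun e x hx => (hG e x hx).1) (fun e x hx => (hG e x hx).2) k hk σ hX ε hε

end Pool.Agent.Results.MP_2f3286_ag.SectionsInLinearSystems
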