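import Pool.Agent.Y213.T6.Sel

/-!
# Selmer sets of the members of a family of subvarieties of a power of an elliptic curve

`E : y² = x³ + a x + b` is an elliptic curve over a number field `K` (any rank) whose
Tate-Shafarevich group is killed by some `M ≥ 1`, and `X` is a closed subvariety of
`E ^ r × ℙ ^ n` such that the fibres of `X → E ^ r` have at most `D` points. For `y` in `ℙ ^ n (K)`
the member `X_y` of the family is the closed subvariety of `E ^ r` over which `y` is a point of the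
fibre, for example a curve. The coverings of `X_y` are the pull-backs of the coverings of `E ^ r`.
For every bound `B` there is one level `N`, at most `C B ^ ε`, such that the `N`-Selmer set of `X_y`
is empty for all but `C B ^ ε` of the points `y` of height at most `B`.
-/

set_option autoImplicit false

namespace Pool.Agent.Results.MP_d37f77_nt.SelmerSetsInFamilies

open MvPolynomial NumberField IsDedekindDomain Pool.Agent.TH954

open scoped LinearAlgebra.Projectivization

/-- `v` are homogeneous coordinates of a point of the curve `y² = x³ + a x + b` -/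
def OnE {k : Type} [Field k] (a b : k) (v : Fin 3 → k) : Prop :=
  v ≠ 0 ∧ v 1 ^ 2 * v 2 = v 0 ^ 3 + a * v 0 * v 2 ^ 2 + b * v 2 ^ 3

/-- the curve `y² = x³ + a x + b` -/
def Curve {k : Type} [Field k] (a b : k) : WeierstrassCurve k :=
  { a₁ := 0, a₂ := 0, a₃ := 0, a₄ := a, a₆ := b }

/-- `F` is homogeneous of degree `d i` in the coordinates `(i, 0), (i, 1), (i, 2)` of the `i`-th
point of the plane, and homogeneous of degree `m` in the last `n + 1` variables -/
def MultiHomog {O : Type} [CommRing O] {r n : ℕ}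
    (F : MvPolynomial ((Fin r × Fin 3) ⊕ Fin (n + 1)) O) (d : Fin r → ℕ) (m : ℕ) : Prop :=
  ∀ e ∈ F.support, (∀ i, ∑ j, e (Sum.inl (i, j)) = d i) ∧ ∑ i, e (Sum.inr i) = m

/-- the fibre over `V` (the homogeneous coordinates of a point of `E ^ r` over `k`), in the
projective `n`-space over `k`, of the subvariety defined by the `G e` -/
def Fibre {O k : Type} [CommRing O] [Field k] (φ : O →+* k) {r n q : ℕ}
    (G : Fin q → MvPolynomial ((Fin r × Fin 3) ⊕ Fin (n + 1)) O) (V : Fin r → Fin 3 → k) :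
    Set (ℙ k (Fin (n + 1) → k)) :=
  {y | ∀ e, eval₂ φ (Sum.elim (fun ij => V ij.1 ij.2) y.rep) (G e) = 0}

/-- the equations `G e (V; y) = 0` of the member `X_y` of the family, for `y` in the projective
`n`-space over `K` -/
noncomputable def Member {K : Type} [Field K] {r n q : ℕ}
    (G : Fin q → MvPolynomial ((Fin r × Fin 3) ⊕ Fin (n + 1)) (𝓞 K))
    (y : ℙ K (Fin (n + 1) → K)) : Set (MvPolynomial (Fin r × Fin 3) K) :=
  Set.range fun e =>
    eval₂ (C.comp (algebraMap (𝓞 K) K)) (Sum.elim X (fun i => C (y.rep i))) (G e)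

open scoped Classical in
/-- the `N`-Selmer set of the member `X_y`, described by cocycles: the `N`-coverings of `E ^ r`
whose pull-backs to `X_y` have points over all completions of `K` -/
def Sel {K : Type} [Field K] [NumberField K] (a b : 𝓞 K) {r n q : ℕ}
    (G : Fin q → MvPolynomial ((Fin r × Fin 3) ⊕ Fin (n + 1)) (𝓞 K)) (N : ℕ)
    (y : ℙ K (Fin (n + 1) → K)) :
    Set (Fin r → (AlgebraicClosure K ≃ₐ[K] AlgebraicClosure K) →
      AlgPt (Curve (a : K) (b : K)) K) :=
  {ξ | (∀ i, IsCocycle (Curve (a : K) (b : K)) (ξ i)) ∧ (∀ i σ, N • ξ i σ = 0) ∧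
    (∀ v : HeightOneSpectrum (𝓞 K),
      CoverPoint (Curve (a : K) (b : K)) (Member G y) N ξ (v.adicCompletion K)) ∧
    ∀ w : InfinitePlace K, CoverPoint (Curve (a : K) (b : K)) (Member G y) N ξ w.Completion}

theorem result (K : Type) [Field K] [NumberField K] (a b : 𝓞 K)
    (hE : 4 * a ^ 3 + 27 * b ^ 2 ≠ 0) (M : ℕ) (hM1 : 1 ≤ M)
    (hM : ShaKilledBy (Curve (a : K) (b : K)) M) (r n q : ℕ)
    (G : Fin q → MvPolynomial ((Fin r × Fin 3) ⊕ Fin (n + 1)) (𝓞 K))
    (d : Fin q → Fin r → ℕ) (m : Fin q → ℕ) (hG : ∀ e, MultiHomog (G e) (d e) (m e))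
    (σ : K →+* ℂ) (D : ℕ)
    (hX : ∀ V : Fin r → Fin 3 → ℂ, (∀ i, OnE (σ a) (σ b) (V i)) →
      (Fibre (σ.comp (algebraMap (𝓞 K) K)) G V).encard ≤ D)
    (ε : ℝ) (hε : 0 < ε) :
    ∃ C : ℝ, ∀ B : ℝ, 1 ≤ B → ∃ N : ℕ, 1 ≤ N ∧ (N : ℝ) ≤ C * B ^ ε ∧
      {y : ℙ K (Fin (n + 1) → K) | y.mulHeight ≤ B ∧ (Sel a b G N y).Nonempty}.Finite ∧
      ({y : ℙ K (Fin (n + 1) → K) | y.mulHeight ≤ B ∧ (Sel a b G N y).Nonempty}.ncard : ℝ) ≤
        C * B ^ ε := by
  obtain ⟨C, hC⟩ := Pool.Agent.Y213.T6.sel_main K r (n + 1) q a b hE M hM1 hM G d m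
    (fun e x hx => (hG e x hx).1) (fun e x hx => (hG e x hx).2) D σ hX ε hε
  refine ⟨C, fun B hB => ?_⟩
  obtain ⟨N, Z, hN, hNB, hZ, hmain⟩ := hC B hB
  have hsub : {y : ℙ K (Fin (n + 1) → K) | y.mulHeight ≤ B ∧ (Sel a b G N y).Nonempty} ⊆
      (Z : Set (ℙ K (Fin (n + 1) → K))) := by
    rintro y ⟨hyB, ξ, hξ⟩
    by_contra hy
    exact hmain y hyB hy ⟨ξ, hξ⟩
  refine ⟨N, hN, hNB, Z.finite_toSet.subset hsub, ?_⟩
  have h1 := Set.ncard_le_ncard hsub Z.finite_toSet
  rw [Set.ncard_coe_finset] at h1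
  exact (by exact_mod_cast h1 : (_ : ℝ) ≤ (Z.card : ℝ)).trans hZ

end Pool.Agent.Results.MP_d37f77_nt.SelmerSetsInFamilies
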